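import Pool.Agent.H65.CF.T8

/-!
# The representations by the forms of the ideal classes in terms of ideals (MP_347b49_nt)
-/

set_option autoImplicit false

open MeasureTheory Set Filter NumberField
open scoped Real nonZeroDivisors ENNReal

namespace Pool.Agent.H59.CF

open Pool.Agent.H31.CN Pool.Agent.H65.CF

theorem rpj_tsum_const {α : Type*} [Finite α] (c : ℝ≥0∞) :
    ∑' _ : α, c = (Nat.card α : ℝ≥0∞) * c := by
  have := Fintype.ofFinite α
  rw [tsum_fintype, Finset.sum_const, Nat.card_eq_fintype_card, nsmul_eq_mul, Finset.card_univ]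

/-- sums over the fibres of a map with finite fibres -/
theorem rpj_fiber {X Y : Type*} (Ψ : X → Y) (hf : ∀ y, Finite {x // Ψ x = y}) (g : Y → ℝ≥0∞) :
    ∑' x, g (Ψ x) = ∑' y, (Nat.card {x // Ψ x = y} : ℝ≥0∞) * g y := by
  rw [← (Equiv.sigmaFiberEquiv Ψ).tsum_eq, ENNReal.tsum_sigma']
  refine tsum_congr fun y => ?_
  have h1 : ∀ x : {x // Ψ x = y}, g (Ψ ((Equiv.sigmaFiberEquiv Ψ) ⟨y, x⟩)) = g y := by
    rintro ⟨x, hx⟩
    show g (Ψ x) = g y
    rw [hx]
  rw [tsum_congr h1]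
  have := hf y
  exact rpj_tsum_const _

/-- **Row RPJ.** -/
theorem pf_RPJ (hPRI : T_PRI) : T_RPJ := by
  classical
  intro D K _ _ hD hFd hfin hdis
  obtain ⟨σ⟩ : Nonempty (K →+* ℂ) := inferInstance
  obtain ⟨Q, I, α, β, b, hFB⟩ := Pool.Agent.H95.CF.fb_exists D K σ hD hfin hdis (hPRI D hFd)
  refine ⟨Q, hFB.fd, fun w hw hsum => ?_⟩
  let N : (Ideal (𝓞 K))⁰ → ℕ := fun J => Ideal.absNorm (J : Ideal (𝓞 K))
  let g : ℕ → ℝ≥0∞ := fun n => ENNReal.ofReal (w n)
  let V := {v : ℤ × ℤ // v ≠ 0}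
  let Ψ : ClassGroup (𝓞 K) × V → (Ideal (𝓞 K))⁰ := fun x => b x.1 x.2.1
  have hN0 : ∀ J : (Ideal (𝓞 K))⁰, 1 ≤ N J := by
    intro J
    rw [Nat.one_le_iff_ne_zero]
    intro h
    exact (nonZeroDivisors.coe_ne_zero J) (Ideal.absNorm_eq_zero_iff.mp h)
  -- the fibres of `Ψ`
  have hfib : ∀ J, Nat.card {x // Ψ x = J} = 2 := by
    intro J
    obtain ⟨v, hv, hvJ⟩ := hFB.sur J
    have hnv : -v ≠ 0 := neg_ne_zero.mpr hv
    have hvn : b (ClassGroup.mk0 J) (-v) = J := by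
      rw [← hvJ, hvJ]
      exact ((hFB.eqv (ClassGroup.mk0 J) (-v) v hnv hv).mpr (Or.inr (neg_neg v).symm)).trans hvJ
    rw [Nat.card_eq_two_iff]
    refine ⟨⟨(ClassGroup.mk0 J, ⟨v, hv⟩), hvJ⟩, ⟨(ClassGroup.mk0 J, ⟨-v, hnv⟩), hvn⟩, ?_, ?_⟩
    · intro h
      have h1 : v = -v := by
        have := congrArg (fun x : {x // Ψ x = J} => x.1.2.1) h
        exact this
      apply hv
      have h2 := congrArg Prod.fst h1
      have h3 := congrArg Prod.snd h1
      rw [Prod.fst_neg] at h2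
      rw [Prod.snd_neg] at h3
      exact Prod.ext (by simp only [Prod.fst_zero]; omega) (by simp only [Prod.snd_zero]; omega)
    · rw [Set.eq_univ_iff_forall]
      rintro ⟨⟨c, ⟨u, hu⟩⟩, hx⟩
      have hx' : b c u = J := hx
      have hc : c = ClassGroup.mk0 J := by
        rw [← hx', hFB.cls c u hu]
      subst hc
      have h1 : b (ClassGroup.mk0 J) v = b (ClassGroup.mk0 J) u := hvJ.trans hx'.symm
      rcases (hFB.eqv (ClassGroup.mk0 J) v u hv hu).mp h1 with rfl | rfl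
      · left
        rfl
      · right
        rfl
  have hfibf : ∀ J, Finite {x // Ψ x = J} := fun J =>
    Nat.finite_of_card_ne_zero (by rw [hfib J]; norm_num)
  have hval : ∀ c v, v ≠ 0 → (val (Q c) v).toNat = N (b c v) := by
    intro c v hv
    rw [← hFB.nrm c v hv]
    exact Int.toNat_natCast _
  -- the sum over the classes and the vectors
  let G : ClassGroup (𝓞 K) → ℤ × ℤ → ℝ := fun c v => if v = 0 then 0 else w (val (Q c) v).toNat
  have hG0 : ∀ c v, 0 ≤ G c v := by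
    intro c v
    show 0 ≤ (if v = 0 then 0 else w (val (Q c) v).toNat)
    split_ifs
    · exact le_rfl
    · exact hw _
  have hGV : ∀ c, ∑' v : ℤ × ℤ, ENNReal.ofReal (G c v) = ∑' v : V, g (N (b c v.1)) := by
    intro c
    have h1 : ∑' v : V, g (N (b c v.1)) =
        ∑' v : ℤ × ℤ, Set.indicator {v : ℤ × ℤ | v ≠ 0} (fun v => g (N (b c v))) v :=
      tsum_subtype {v : ℤ × ℤ | v ≠ 0} (fun v => g (N (b c v)))
    rw [h1]
    refine tsum_congr fun v => ?_
    by_cases hv : v = 0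
    · rw [Set.indicator_of_notMem (by simpa using hv)]
      show ENNReal.ofReal (if v = 0 then 0 else w (val (Q c) v).toNat) = 0
      rw [if_pos hv, ENNReal.ofReal_zero]
    · rw [Set.indicator_of_mem (by exact hv)]
      show ENNReal.ofReal (if v = 0 then 0 else w (val (Q c) v).toNat) = ENNReal.ofReal (w _)
      rw [if_neg hv, hval c v hv]
  have h1 : ∑' x : ClassGroup (𝓞 K) × V, g (N (Ψ x)) = 2 * ∑' J, g (N J) := by
    rw [rpj_fiber Ψ hfibf (fun J => g (N J)), ← ENNReal.tsum_mul_left]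
    refine tsum_congr fun J => ?_
    rw [hfib J]
    norm_num
  have h2 : ∑' x : ClassGroup (𝓞 K) × V, g (N (Ψ x)) =
      ∑ c, ∑' v : ℤ × ℤ, ENNReal.ofReal (G c v) := by
    rw [ENNReal.tsum_prod', tsum_fintype]
    refine Finset.sum_congr rfl fun c _ => ?_
    rw [hGV c]
  -- the sum over the ideals
  have hequiv : ∀ n : ℕ, {J : (Ideal (𝓞 K))⁰ // N J - 1 = n} ≃
      {J : Ideal (𝓞 K) // Ideal.absNorm J = n + 1} := fun n =>
    { toFun := fun J => ⟨(J.1 : Ideal (𝓞 K)), by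
        have h1 := hN0 J.1
        have h2 := J.2
        have h3 : N J.1 = n + 1 := by omega
        exact h3⟩
      invFun := fun J => ⟨⟨J.1, by
        rw [mem_nonZeroDivisors_iff_ne_zero]
        intro h
        have h1 := J.2
        rw [h] at h1
        simp at h1⟩, by
        have h1 : N ⟨J.1, by
          rw [mem_nonZeroDivisors_iff_ne_zero]
          intro h
          have h1 := J.2
          rw [h] at h1
          simp at h1⟩ = n + 1 := J.2
        omega⟩
      left_inv := fun J => rfl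
      right_inv := fun J => rfl }
  have hfin2 : ∀ n : ℕ, Finite {J : Ideal (𝓞 K) // Ideal.absNorm J = n + 1} := fun n =>
    Ideal.finite_setOfPred_absNorm_eq (S := 𝓞 K) (n + 1)
  have h3 : ∑' J, g (N J) = ∑' n : ℕ,
      (Nat.card {J : Ideal (𝓞 K) // Ideal.absNorm J = n + 1} : ℝ≥0∞) * g (n + 1) := by
    have e1 : ∑' J, g (N J) = ∑' J : (Ideal (𝓞 K))⁰, g (N J - 1 + 1) := by
      refine tsum_congr fun J => ?_
      rw [Nat.sub_add_cancel (hN0 J)]
    rw [e1, rpj_fiber (fun J : (Ideal (𝓞 K))⁰ => N J - 1)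
      (fun n => by
        have := hfin2 n
        exact Finite.of_equiv _ (hequiv n).symm) (fun n => g (n + 1))]
    refine tsum_congr fun n => ?_
    rw [Nat.card_congr (hequiv n)]
  let W : ℕ → ℝ := fun n =>
    (Nat.card {J : Ideal (𝓞 K) // Ideal.absNorm J = n + 1} : ℝ) * w (n + 1)
  have hW0 : ∀ n, 0 ≤ W n := fun n => mul_nonneg (Nat.cast_nonneg _) (hw _)
  have h4 : ∑' n : ℕ, (Nat.card {J : Ideal (𝓞 K) // Ideal.absNorm J = n + 1} : ℝ≥0∞) *
      g (n + 1) = ENNReal.ofReal (∑' n, W n) := by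
    rw [ENNReal.ofReal_tsum_of_nonneg hW0 hsum]
    refine tsum_congr fun n => ?_
    show _ = ENNReal.ofReal (_ * _)
    rw [ENNReal.ofReal_mul (Nat.cast_nonneg _), ENNReal.ofReal_natCast]
  have h5 : ∑ c, ∑' v : ℤ × ℤ, ENNReal.ofReal (G c v) = 2 * ENNReal.ofReal (∑' n, W n) := by
    rw [← h2, h1, h3, h4]
  have h6 : ∑ c, ∑' v : ℤ × ℤ, ENNReal.ofReal (G c v) ≠ ∞ := by
    rw [h5]
    exact ENNReal.mul_ne_top (by norm_num) ENNReal.ofReal_ne_top
  have h7 : ∀ c, ∑' v : ℤ × ℤ, ENNReal.ofReal (G c v) ≠ ∞ := fun c =>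
    (ENNReal.sum_ne_top.mp h6) c (Finset.mem_univ c)
  have h8 : ∀ c, Summable (G c) := by
    intro c
    have := ENNReal.summable_toReal (h7 c)
    refine this.congr fun v => ?_
    exact (ENNReal.toReal_ofReal (hG0 c v))
  have h9 : ∀ c, ∑' v : ℤ × ℤ, ENNReal.ofReal (G c v) = ENNReal.ofReal (∑' v, G c v) := fun c =>
    (ENNReal.ofReal_tsum_of_nonneg (hG0 c) (h8 c)).symm
  refine ⟨h8, ?_⟩
  have h10 : ENNReal.ofReal (∑ c, ∑' v, G c v) = ENNReal.ofReal (2 * ∑' n, W n) := by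
    rw [ENNReal.ofReal_sum_of_nonneg (fun c _ => tsum_nonneg (hG0 c)),
      ENNReal.ofReal_mul (by norm_num)]
    rw [Finset.sum_congr rfl fun c _ => (h9 c).symm, h5]
    norm_num
  exact (ENNReal.ofReal_eq_ofReal_iff (Finset.sum_nonneg fun c _ => tsum_nonneg (hG0 c))
    (mul_nonneg (by norm_num) (tsum_nonneg hW0))).mp h10

end Pool.Agent.H59.CF
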